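import Pool.Agent.Helper88.CM.HA
import Pool.Agent.W356.MO.HX

/-!
# MP_768c9c_nt under RH, task HX of helper34's project CM (`t_HX : T_HXM`)

Adapted from `Pool/Agent/W356/MO/HX.lean`.
-/

set_option autoImplicit false

namespace Pool.Agent.Helper88.CM

open Finset Filter Topology Pool.Agent.W76.MO Pool.Agent.Helper34.CM
open Pool.Agent.W356.MO (w_nonneg cell_le lt_cell)
open scoped Classical

theorem host_lp' {E : Env} {j i k n : ℕ} (hn : n ∈ E.Host j i k) :
    (2 : ℝ) ^ ((1 / 2 + E.τ) * i) ≤ lp n := Pool.Agent.W356.MO.host_lp hn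

/-- the multiplicity of a prime `> 2^(i/20)` in `n ≤ 2^(i+1)` -/
theorem mult_le_twenty {i n q : ℕ} (hi : 20 ≤ i) (hn0 : n ≠ 0) (hn : n ≤ 2 ^ (i + 1))
    (hq : (2 : ℝ) ^ (1 / 20 * (i : ℝ)) < q) : n.factorization q ≤ 20 := by
  by_contra hc
  push Not at hc
  have h1 : q ^ 21 ∣ n := (pow_dvd_pow q hc).trans (Nat.ordProj_dvd n q)
  have h2 : q ^ 21 ≤ 2 ^ (i + 1) := (Nat.le_of_dvd (Nat.pos_of_ne_zero hn0) h1).trans hn
  have h3 : (q : ℝ) ^ 21 ≤ 2 ^ (i + 1) := by exact_mod_cast h2
  have h4 : ((2 : ℝ) ^ (1 / 20 * (i : ℝ))) ^ 21 < (q : ℝ) ^ 21 :=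
    pow_lt_pow_left₀ hq (by positivity) (by norm_num)
  have h5 : ((2 : ℝ) ^ (1 / 20 * (i : ℝ))) ^ 21 = (2 : ℝ) ^ (21 / 20 * (i : ℝ)) := by
    rw [← Real.rpow_natCast, ← Real.rpow_mul (by norm_num)]
    congr 1
    push_cast
    ring
  have h6 : (2 : ℝ) ^ (i + 1) ≤ (2 : ℝ) ^ (21 / 20 * (i : ℝ)) := by
    rw [← Real.rpow_natCast]
    apply Real.rpow_le_rpow_of_exponent_le (by norm_num)
    have : (20 : ℝ) ≤ i := by exact_mod_cast hi
    push_cast
    linarith
  linarith

/-- the multiplicity of a prime `≥ 2^((1/2+τ)i')`, `i' ≥ (1-τ) i`, in `n ≤ 2^(i+1)` -/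
theorem mult_le_one {E : Env} {i i' n q : ℕ} (hi : 2 / E.τ < i) (hn0 : n ≠ 0)
    (hn : n ≤ 2 ^ (i + 1)) (hi' : (1 - E.τ) * i ≤ (i' : ℝ))
    (hq : (2 : ℝ) ^ ((1 / 2 + E.τ) * i') ≤ q) : n.factorization q ≤ 1 := by
  have hτ := E.hτ
  have hτ' := E.hτ'
  by_contra hc
  push Not at hc
  have h1 : q ^ 2 ∣ n := (pow_dvd_pow q hc).trans (Nat.ordProj_dvd n q)
  have h2 : q ^ 2 ≤ 2 ^ (i + 1) := (Nat.le_of_dvd (Nat.pos_of_ne_zero hn0) h1).trans hn
  have h3 : (q : ℝ) ^ 2 ≤ 2 ^ (i + 1) := by exact_mod_cast h2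
  have h4 : ((2 : ℝ) ^ ((1 / 2 + E.τ) * (i' : ℝ))) ^ 2 ≤ (q : ℝ) ^ 2 :=
    pow_le_pow_left₀ (by positivity) hq 2
  have h5 : ((2 : ℝ) ^ ((1 / 2 + E.τ) * (i' : ℝ))) ^ 2 = (2 : ℝ) ^ ((1 + 2 * E.τ) * (i' : ℝ)) := by
    rw [← Real.rpow_natCast, ← Real.rpow_mul (by norm_num)]
    congr 1
    push_cast
    ring
  have h6 : (2 : ℝ) ^ (i + 1) < (2 : ℝ) ^ ((1 + 2 * E.τ) * (i' : ℝ)) := by
    rw [← Real.rpow_natCast]
    apply Real.rpow_lt_rpow_of_exponent_lt (by norm_num)
    have h7 : 2 < i * E.τ := by rwa [div_lt_iff₀ hτ] at hi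
    push_cast
    have h8 : (1 + 2 * E.τ) * ((1 - E.τ) * i) ≤ (1 + 2 * E.τ) * i' :=
      mul_le_mul_of_nonneg_left hi' (by linarith)
    have h9 : (1 + 2 * E.τ) * ((1 - E.τ) * i) = i + (i * E.τ) * (1 - 2 * E.τ) := by ring
    have h10 : 1 < (i * E.τ) * (1 - 2 * E.τ) := by nlinarith
    linarith
  linarith

theorem t_HX : T_HXM := by
  intro E hG h1 hA hB
  obtain ⟨JG, _, hG⟩ := hG
  obtain ⟨J1, h1⟩ := h1
  obtain ⟨R₀, hA⟩ := hA
  obtain ⟨JB, hB⟩ := hB
  refine ⟨R₀, fun R hR => ?_⟩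
  obtain ⟨JA, hA⟩ := hA R hR
  refine ⟨max (max JG J1) (max JA JB) + 20 + (⌊2 / E.τ⌋₊ + 1), fun j hj i hij k hk => ?_⟩
  have hjG : JG ≤ j := by
    have : JG ≤ max (max JG J1) (max JA JB) := le_trans (le_max_left _ _) (le_max_left _ _)
    omega
  have hj1 : J1 ≤ j := by
    have : J1 ≤ max (max JG J1) (max JA JB) := le_trans (le_max_right _ _) (le_max_left _ _)
    omega
  have hjA : JA ≤ j := by
    have : JA ≤ max (max JG J1) (max JA JB) := le_trans (le_max_left _ _) (le_max_right _ _)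
    omega
  have hjB : JB ≤ j := by
    have : JB ≤ max (max JG J1) (max JA JB) := le_trans (le_max_right _ _) (le_max_right _ _)
    omega
  have hi20 : 20 ≤ i := by omega
  have hiτ : 2 / E.τ < i := by
    have h0 : ⌊2 / E.τ⌋₊ + 1 ≤ i := by omega
    have h2 := Nat.lt_floor_add_one (2 / E.τ)
    have h3 : ((⌊2 / E.τ⌋₊ + 1 : ℕ) : ℝ) ≤ i := by exact_mod_cast h0
    push_cast at h3
    linarith
  obtain ⟨_, hgu, hgh, _⟩ := hG j hjG
  have h1' := h1 j hj1 R i k hij hk
  have hA' := hA j hjA i k hij hk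
  have hB' := hB j hjB R i k hij hk
  have hτ := E.hτ
  have hw := w_nonneg E i
  set c : ℕ → ℝ := fun i' => if (i' : ℝ) < (1 - E.τ) * i then 20 else 1 with hc
  have hc0 : ∀ i', 0 ≤ c i' := by
    intro i'
    simp only [hc]
    split_ifs <;> norm_num
  -- the main bound
  have key : ∑ n ∈ csm E R i k, ∑ q ∈ n.primeFactors.filter
      (fun q : ℕ => (2 : ℝ) ^ (1 / 20 * (i : ℝ)) < q),
      (n.factorization q : ℝ) * (E.gh j q * (E2m E j (n / q) / ((n / q : ℕ) : ℝ))) ≤
      ∑ i' ∈ (range (2 * i + 3)).filter (fun i' : ℕ => j ≤ i'),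
        c i' * ∑ k' ∈ E.Bad i', HTm E j R i k i' k' (fun _ _ => True) := by
    have step : ∀ n ∈ csm E R i k, ∑ q ∈ n.primeFactors.filter
      (fun q : ℕ => (2 : ℝ) ^ (1 / 20 * (i : ℝ)) < q),
      (n.factorization q : ℝ) * (E.gh j q * (E2m E j (n / q) / ((n / q : ℕ) : ℝ))) ≤
      ∑ i' ∈ (range (2 * i + 3)).filter (fun i' : ℕ => j ≤ i'),
        c i' * ∑ k' ∈ E.Bad i', ∑ n₁ ∈ (E.Host j i' k').filter (fun n₁ => W76.MO.lp n₁ ∣ n ∧
          (2 : ℝ) ^ (1 / 20 * (i : ℝ)) < W76.MO.lp n₁ ∧ True),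
          E.w i' / ((E.Host j i' k').card : ℝ) * ((n₁ : ℝ) / n) * E2m E j (n / W76.MO.lp n₁) := by
      intro n hn
      have hncell : n ∈ cell E.δ i k := by
        unfold csm at hn
        exact (Finset.mem_filter.mp hn).1
      have hnle : n ≤ 2 ^ (i + 1) := cell_le hk hncell
      have hnpos : 0 < n := lt_of_le_of_lt (Nat.zero_le _) (lt_cell hncell)
      -- first, bound each q term
      have stepq : ∀ q ∈ n.primeFactors.filter
          (fun q : ℕ => (2 : ℝ) ^ (1 / 20 * (i : ℝ)) < q),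
          (n.factorization q : ℝ) * (E.gh j q * (E2m E j (n / q) / ((n / q : ℕ) : ℝ))) ≤
          ∑ i' ∈ (range (2 * i + 3)).filter (fun i' : ℕ => j ≤ i'),
            c i' * ∑ k' ∈ E.Bad i', ∑ n₁ ∈ (E.Host j i' k').filter (fun n₁ => W76.MO.lp n₁ = q),
              E.w i' / ((E.Host j i' k').card : ℝ) * ((n₁ : ℝ) / n) * E2m E j (n / W76.MO.lp n₁) := by
        intro q hq
        rw [Finset.mem_filter] at hq
        have hqp : q.Prime := Nat.prime_of_mem_primeFactors hq.1
        have hqd : q ∣ n := Nat.dvd_of_mem_primeFactors hq.1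
        have hqn : q ≤ n := Nat.le_of_dvd hnpos hqd
        have hq0 : (0 : ℝ) < q := by exact_mod_cast hqp.pos
        have hn0 : (0 : ℝ) < n := by exact_mod_cast hnpos
        have hdiv : ((n / q : ℕ) : ℝ) = (n : ℝ) / q := by
          rw [Nat.cast_div hqd (ne_of_gt hq0)]
        unfold Env.gh
        rw [Finset.sum_mul]
        -- pointwise identity
        have hid : ∀ i' : ℕ, (∑ k' ∈ E.Bad i', ∑ n₁ ∈ (E.Host j i' k').filter (fun n₁ => W76.MO.lp n₁ = q),
            E.w i' / ((E.Host j i' k').card : ℝ) * ((n₁ : ℝ) / q)) *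
              (E2m E j (n / q) / ((n / q : ℕ) : ℝ)) =
            ∑ k' ∈ E.Bad i', ∑ n₁ ∈ (E.Host j i' k').filter (fun n₁ => W76.MO.lp n₁ = q),
              E.w i' / ((E.Host j i' k').card : ℝ) * ((n₁ : ℝ) / n) * E2m E j (n / W76.MO.lp n₁) := by
          intro i'
          rw [Finset.sum_mul]
          apply Finset.sum_congr rfl
          intro k' _
          rw [Finset.sum_mul]
          apply Finset.sum_congr rfl
          intro n₁ hn₁
          rw [Finset.mem_filter] at hn₁
          rw [hn₁.2, hdiv]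
          field_simp
        rw [Finset.sum_congr rfl (fun i' _ => hid i'), Finset.mul_sum]
        -- compare index sets
        have hnonneg : ∀ i' : ℕ, 0 ≤ ∑ k' ∈ E.Bad i',
            ∑ n₁ ∈ (E.Host j i' k').filter (fun n₁ => W76.MO.lp n₁ = q),
              E.w i' / ((E.Host j i' k').card : ℝ) * ((n₁ : ℝ) / n) * E2m E j (n / W76.MO.lp n₁) := by
          intro i'
          apply Finset.sum_nonneg
          intro k' _
          apply Finset.sum_nonneg
          intro n₁ _
          have := w_nonneg E i'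
          have := E2m_nonneg hgu hgh (n / W76.MO.lp n₁)
          positivity
        have hbnd : ∀ i' : ℕ, (n.factorization q : ℝ) * ∑ k' ∈ E.Bad i',
            ∑ n₁ ∈ (E.Host j i' k').filter (fun n₁ => W76.MO.lp n₁ = q),
              E.w i' / ((E.Host j i' k').card : ℝ) * ((n₁ : ℝ) / n) * E2m E j (n / W76.MO.lp n₁) ≤
            c i' * ∑ k' ∈ E.Bad i',
            ∑ n₁ ∈ (E.Host j i' k').filter (fun n₁ => W76.MO.lp n₁ = q),
              E.w i' / ((E.Host j i' k').card : ℝ) * ((n₁ : ℝ) / n) * E2m E j (n / W76.MO.lp n₁) := by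
          intro i'
          by_cases hex : ∃ k' ∈ E.Bad i', ∃ n₁ ∈ E.Host j i' k', W76.MO.lp n₁ = q
          · obtain ⟨k', _, n₁, hn₁, hlp⟩ := hex
            apply mul_le_mul_of_nonneg_right _ (hnonneg i')
            by_cases hlt : (i' : ℝ) < (1 - E.τ) * i
            · have h20 := mult_le_twenty hi20 hnpos.ne' hnle hq.2
              simp only [hc, if_pos hlt]
              exact_mod_cast h20
            · have hqbig := host_lp' hn₁
              rw [hlp] at hqbig
              have h11 := mult_le_one hiτ hnpos.ne' hnle (not_lt.1 hlt) hqbig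
              simp only [hc, if_neg hlt]
              exact_mod_cast h11
          · have h0 : ∑ k' ∈ E.Bad i',
              ∑ n₁ ∈ (E.Host j i' k').filter (fun n₁ => W76.MO.lp n₁ = q),
              E.w i' / ((E.Host j i' k').card : ℝ) * ((n₁ : ℝ) / n) *
                E2m E j (n / W76.MO.lp n₁) = 0 := by
              apply Finset.sum_eq_zero
              intro k' hk'
              apply Finset.sum_eq_zero
              intro n₁ hn₁
              rw [Finset.mem_filter] at hn₁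
              exact absurd ⟨k', hk', n₁, hn₁.1, hn₁.2⟩ hex
            rw [h0, mul_zero, mul_zero]
        refine le_trans (Finset.sum_le_sum fun i' _ => hbnd i') ?_
        have hzero : ∀ i' : ℕ, 2 * i + 3 ≤ i' → c i' * ∑ k' ∈ E.Bad i',
            ∑ n₁ ∈ (E.Host j i' k').filter (fun n₁ => W76.MO.lp n₁ = q),
              E.w i' / ((E.Host j i' k').card : ℝ) * ((n₁ : ℝ) / n) * E2m E j (n / W76.MO.lp n₁) = 0 := by
          intro i' hi'
          rw [Finset.sum_eq_zero, mul_zero]
          intro k' _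
          apply Finset.sum_eq_zero
          intro n₁ hn₁
          exfalso
          rw [Finset.mem_filter] at hn₁
          have h3 := host_lp' hn₁.1
          rw [hn₁.2] at h3
          have h4 : (q : ℝ) ≤ (2 : ℝ) ^ ((i : ℝ) + 1) := by
            have : (q : ℝ) ≤ ((2 ^ (i + 1) : ℕ) : ℝ) := by
              exact_mod_cast le_trans hqn hnle
            rw [show ((i : ℝ) + 1) = ((i + 1 : ℕ) : ℝ) by push_cast; ring, Real.rpow_natCast]
            push_cast at this
            exact this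
          have h5 : (2 : ℝ) ^ ((i : ℝ) + 1) < (2 : ℝ) ^ ((1 / 2 + E.τ) * i') := by
            apply Real.rpow_lt_rpow_of_exponent_lt (by norm_num)
            have : (2 * (i : ℝ) + 3) ≤ i' := by exact_mod_cast hi'
            nlinarith
          linarith
        rw [← Finset.sum_filter_ne_zero]
        apply Finset.sum_le_sum_of_subset_of_nonneg
        · intro i' hi'
          rw [Finset.mem_filter, Finset.mem_filter] at hi'
          rw [Finset.mem_filter]
          refine ⟨?_, hi'.1.2⟩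
          rw [Finset.mem_range]
          by_contra hcon
          exact hi'.2 (hzero i' (by omega))
        · intro i' _ _
          exact mul_nonneg (hc0 i') (hnonneg i')
      refine le_trans (Finset.sum_le_sum stepq) ?_
      rw [Finset.sum_comm]
      apply Finset.sum_le_sum
      intro i' _
      rw [← Finset.mul_sum]
      apply mul_le_mul_of_nonneg_left _ (hc0 i')
      rw [Finset.sum_comm]
      apply Finset.sum_le_sum
      intro k' _
      -- fiberwise
      have hfib : ∑ q ∈ n.primeFactors.filter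
          (fun q : ℕ => (2 : ℝ) ^ (1 / 20 * (i : ℝ)) < q),
          ∑ n₁ ∈ (E.Host j i' k').filter (fun n₁ => W76.MO.lp n₁ = q),
            E.w i' / ((E.Host j i' k').card : ℝ) * ((n₁ : ℝ) / n) * E2m E j (n / W76.MO.lp n₁) =
          ∑ n₁ ∈ (E.Host j i' k').filter (fun n₁ => W76.MO.lp n₁ ∈ n.primeFactors.filter
          (fun q : ℕ => (2 : ℝ) ^ (1 / 20 * (i : ℝ)) < q)),
            E.w i' / ((E.Host j i' k').card : ℝ) * ((n₁ : ℝ) / n) * E2m E j (n / W76.MO.lp n₁) := by
        rw [← Finset.sum_fiberwise_of_maps_to (s := (E.Host j i' k').filter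
          (fun n₁ => W76.MO.lp n₁ ∈ n.primeFactors.filter
            (fun q : ℕ => (2 : ℝ) ^ (1 / 20 * (i : ℝ)) < q)))
          (t := n.primeFactors.filter (fun q : ℕ => (2 : ℝ) ^ (1 / 20 * (i : ℝ)) < q)) (g := W76.MO.lp)]
        · apply Finset.sum_congr rfl
          intro q hq
          apply Finset.sum_congr
          · ext n₁
            simp only [Finset.mem_filter] at hq ⊢
            constructor
            · rintro ⟨ha, hb⟩
              refine ⟨⟨ha, ?_⟩, hb⟩
              rw [hb]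
              exact hq
            · rintro ⟨⟨ha, _⟩, hb⟩
              exact ⟨ha, hb⟩
          · intro _ _
            rfl
        · intro n₁ hn₁
          exact (Finset.mem_filter.mp hn₁).2
      rw [hfib]
      apply Finset.sum_le_sum_of_subset_of_nonneg
      · intro n₁ hn₁
        simp only [Finset.mem_filter] at hn₁ ⊢
        exact ⟨hn₁.1, Nat.dvd_of_mem_primeFactors hn₁.2.1, hn₁.2.2, trivial⟩
      · intro n₁ _ _
        have := w_nonneg E i'
        have := E2m_nonneg hgu hgh (n / W76.MO.lp n₁)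
        positivity
    refine le_trans (Finset.sum_le_sum step) ?_
    rw [Finset.sum_comm]
    apply le_of_eq
    apply Finset.sum_congr rfl
    intro i' _
    rw [← Finset.mul_sum]
    congr 1
    rw [Finset.sum_comm]
    apply Finset.sum_congr rfl
    intro k' _
    unfold HTm
    rw [Finset.sum_filter, Finset.sum_product_right]
    apply Finset.sum_congr rfl
    intro n _
    rw [Finset.sum_filter]
    apply Finset.sum_congr rfl
    intro n₁ _
    congr
  refine le_trans key ?_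
  rw [← Finset.sum_filter_add_sum_filter_not _ (fun i' : ℕ => (i' : ℝ) < (1 - E.τ) * i),
    Finset.filter_filter, Finset.filter_filter]
  simp only [not_lt]
  have hfirst : ∑ i' ∈ (range (2 * i + 3)).filter
      (fun i' : ℕ => j ≤ i' ∧ (i' : ℝ) < (1 - E.τ) * i),
      c i' * ∑ k' ∈ E.Bad i', HTm E j R i k i' k' (fun _ _ => True) ≤ 20 * (E.w i / 2000) := by
    refine le_trans (le_of_eq ?_) (mul_le_mul_of_nonneg_left h1' (by norm_num : (0 : ℝ) ≤ 20))
    rw [Finset.mul_sum]
    apply Finset.sum_congr rfl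
    intro i' hi'
    rw [Finset.mem_filter] at hi'
    simp only [hc, if_pos hi'.2.2]
  have hsplit : ∑ i' ∈ (range (2 * i + 3)).filter
      (fun i' : ℕ => j ≤ i' ∧ (1 - E.τ) * i ≤ (i' : ℝ)),
      c i' * ∑ k' ∈ E.Bad i', HTm E j R i k i' k' (fun _ _ => True) =
      ∑ i' ∈ (range (2 * i + 3)).filter
      (fun i' : ℕ => j ≤ i' ∧ (1 - E.τ) * i ≤ (i' : ℝ)),
      ∑ k' ∈ E.Bad i', HTm E j R i k i' k' (fun a b => a ∣ b) +
      ∑ i' ∈ (range (2 * i + 3)).filter
      (fun i' : ℕ => j ≤ i' ∧ (1 - E.τ) * i ≤ (i' : ℝ)),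
      ∑ k' ∈ E.Bad i', HTm E j R i k i' k' (fun a b => ¬ a ∣ b) := by
    rw [← Finset.sum_add_distrib]
    apply Finset.sum_congr rfl
    intro i' hi'
    rw [Finset.mem_filter] at hi'
    simp only [hc, if_neg (not_lt.2 hi'.2.2), one_mul]
    rw [← Finset.sum_add_distrib]
    apply Finset.sum_congr rfl
    intro k' _
    unfold HTm
    rw [← Finset.sum_filter_add_sum_filter_not _ (fun u : ℕ × ℕ => u.1 ∣ u.2),
      Finset.filter_filter, Finset.filter_filter]
    simp only [and_true, and_assoc]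
  rw [hsplit]
  linarith

end Pool.Agent.Helper88.CM
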